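import Mathlib
import Pool.Agent.Helper70.KN.Goals

/-! Packet CL of project KN. -/

open MeasureTheory Set

open scoped Pointwise

namespace Pool.Agent.Helper93.KN.CL

open Pool.Agent.Helper70.KN

theorem eq_add {N : ℕ} (V : Finset (Fin N → ℕ)) : newton V =
    convexHull ℝ ((fun (v : Fin N → ℕ) (i : Fin N) => (v i : ℝ)) '' (V : Set (Fin N → ℕ))) +
      {y : Fin N → ℝ | 0 ≤ y} := by
  ext x
  constructor
  · rintro ⟨z, hz, hzx⟩
    exact ⟨z, hz, x - z, sub_nonneg.2 hzx, add_sub_cancel _ _⟩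
  · rintro ⟨z, hz, y, hy, rfl⟩
    exact ⟨z, hz, le_add_of_nonneg_right hy⟩

theorem t : S_CL := by
  intro N V
  have hc : IsCompact (convexHull ℝ ((fun (v : Fin N → ℕ) (i : Fin N) => (v i : ℝ)) '' (V : Set (Fin N → ℕ)))) :=
    Set.Finite.isCompact_convexHull (𝕜 := ℝ) (V.finite_toSet.image _)
  refine ⟨?_, ?_, ?_⟩
  · rw [eq_add]
    exact IsClosed.add_left_of_isCompact (isClosed_Ici (a := (0 : Fin N → ℝ))) hc
  · rw [eq_add]
    exact (convex_convexHull ℝ _).add (convex_Ici (0 : Fin N → ℝ))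
  · rintro x y hxy ⟨z, hz, hzx⟩
    exact ⟨z, hz, hzx.trans hxy⟩

end Pool.Agent.Helper93.KN.CL
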