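import Pool.Agent.Helper70.KN.Goals2

/-! Packet DU of project KN. -/

open MeasureTheory Set

namespace Pool.Agent.Helper93.KN.DU

open Pool.Agent.Helper70.KN

theorem dual_sum {N : ℕ} (f : (Fin N → ℝ) →L[ℝ] ℝ) (y : Fin N → ℝ) :
    f y = ∑ j, f (Pi.single j 1) * y j := by
  have h := LinearMap.pi_apply_eq_sum_univ (f : (Fin N → ℝ) →ₗ[ℝ] ℝ) y
  have h1 : f y = ∑ i, y i • f (fun j => if i = j then 1 else 0) := h
  rw [h1]
  refine Finset.sum_congr rfl (fun i _ => ?_)
  have h2 : (fun j : Fin N => if i = j then (1 : ℝ) else 0) = Pi.single i 1 := by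
    ext j
    rw [Pi.single_apply]
    by_cases hij : i = j
    · rw [if_pos hij, if_pos hij.symm]
    · rw [if_neg hij, if_neg (fun h => hij h.symm)]
  rw [h2, smul_eq_mul, mul_comm]

theorem mem_v {N : ℕ} {V : Finset (Fin N → ℕ)} {v : Fin N → ℕ} (hv : v ∈ V) :
    (fun i => (v i : ℝ)) ∈ newton V :=
  ⟨_, subset_convexHull ℝ _ ⟨v, hv, rfl⟩, le_rfl⟩

theorem t (hCL : S_CL) : S_DU := by
  rintro N V c hN ⟨hconv, hc, h0, hthick⟩
  obtain ⟨hcl, hcv, hup⟩ := hCL N V
  have hN' : (2 : ℝ) ≤ N := by exact_mod_cast hN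
  refine ⟨hconv, h0, by positivity, div_pos (by linarith) hc,
    {w | (∀ j, 0 ≤ w j ∧ w j ≤ 1 / c) ∧ ∀ v ∈ V, 1 ≤ ∑ j, w j * (v j : ℝ)}, ?_, ?_⟩
  · rintro w ⟨hw, -⟩
    refine ⟨hw, fun i => ?_⟩
    have h := Finset.sum_le_card_nsmul (Finset.univ.erase i) w (1 / c) (fun j _ => (hw j).2)
    refine h.trans ?_
    rw [Finset.card_erase_of_mem (Finset.mem_univ _), Finset.card_univ, Fintype.card_fin, nsmul_eq_mul,
      Nat.cast_sub (by omega), Nat.cast_one]
    exact le_of_eq (by ring)
  · apply Set.Subset.antisymm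
    · rintro x ⟨z, hz, hzx⟩
      have hsub : convexHull ℝ ((fun (v : Fin N → ℕ) (i : Fin N) => (v i : ℝ)) '' (V : Set (Fin N → ℕ))) ⊆
          {z | 0 ≤ z ∧ ∀ w ∈ {w : Fin N → ℝ | (∀ j, 0 ≤ w j ∧ w j ≤ 1 / c) ∧ ∀ v ∈ V, 1 ≤ ∑ j, w j * (v j : ℝ)},
            1 ≤ ∑ j, w j * z j} := by
        refine convexHull_min ?_ ?_
        · rintro _ ⟨v, hv, rfl⟩
          exact ⟨fun i => Nat.cast_nonneg _, fun w hw => hw.2 v hv⟩
        · rintro a ⟨ha0, ha⟩ b ⟨hb0, hb⟩ s r hs hr hsr
          refine ⟨add_nonneg (smul_nonneg hs ha0) (smul_nonneg hr hb0), fun w hw => ?_⟩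
          have e : ∑ j, w j * (s • a + r • b) j = s * ∑ j, w j * a j + r * ∑ j, w j * b j := by
            rw [Finset.mul_sum, Finset.mul_sum, ← Finset.sum_add_distrib]
            refine Finset.sum_congr rfl (fun j _ => ?_)
            simp only [Pi.add_apply, Pi.smul_apply, smul_eq_mul]
            ring
          rw [e]
          have h1 := mul_le_mul_of_nonneg_left (ha w hw) hs
          have h2 := mul_le_mul_of_nonneg_left (hb w hw) hr
          linarith
      obtain ⟨hz0, hzw⟩ := hsub hz
      refine ⟨hz0.trans hzx, fun w hw => (hzw w hw).trans ?_⟩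
      exact Finset.sum_le_sum (fun j _ => mul_le_mul_of_nonneg_left (hzx j) (hw.1 j).1)
    · rintro x ⟨hx0, hxL⟩
      by_contra hx
      obtain ⟨f, u, hfx, hfb⟩ := geometric_hahn_banach_point_closed hcv hcl hx
      -- the coordinates are nonnegative
      have hf0 : ∀ j, 0 ≤ f (Pi.single j 1) := by
        intro j
        by_contra hneg
        push Not at hneg
        obtain ⟨m, -, hm⟩ := hconv ⟨0, by omega⟩
        have hb := mem_v hm
        set b : Fin N → ℝ := fun i => ((Pi.single (⟨0, by omega⟩ : Fin N) m : Fin N → ℕ) i : ℝ) with hbdef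
        have hfb0 := hfb b hb
        have hs : 0 ≤ (f b - u) / (-f (Pi.single j 1)) := div_nonneg (by linarith) (by linarith)
        have h1 := hfb (b + ((f b - u) / (-f (Pi.single j 1))) • Pi.single j 1)
          (hup (le_add_of_nonneg_right (smul_nonneg hs (Pi.single_nonneg.2 zero_le_one))) hb)
        rw [map_add, map_smul, smul_eq_mul] at h1
        have h2 : (f b - u) / (-f (Pi.single j 1)) * f (Pi.single j 1) = -(f b - u) := by
          rw [div_neg, neg_mul, div_mul_cancel₀ _ hneg.ne]
        rw [h2] at h1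
        linarith
      have hfx0 : 0 ≤ f x := by
        rw [dual_sum]
        exact Finset.sum_nonneg (fun j _ => mul_nonneg (hf0 j) (hx0 j))
      have hu : 0 < u := by linarith
      set w : Fin N → ℝ := fun j => min (f (Pi.single j 1) / u) (1 / c) with hw
      have hw0 : ∀ j, 0 ≤ w j := fun j => le_min (div_nonneg (hf0 j) hu.le) (by positivity)
      have hwL : w ∈ {w : Fin N → ℝ | (∀ j, 0 ≤ w j ∧ w j ≤ 1 / c) ∧ ∀ v ∈ V, 1 ≤ ∑ j, w j * (v j : ℝ)} := by
        refine ⟨fun j => ⟨hw0 j, min_le_right _ _⟩, fun v hv => ?_⟩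
        by_cases hcase : ∃ j, v j ≠ 0 ∧ 1 / c ≤ f (Pi.single j 1) / u
        · obtain ⟨j, hj1, hj2⟩ := hcase
          have e1 : w j = 1 / c := min_eq_right hj2
          have e2 : (1 : ℝ) ≤ w j * v j := by
            rw [e1]
            have := hthick v hv j hj1
            rw [one_div, ← inv_mul_cancel₀ hc.ne']
            exact mul_le_mul_of_nonneg_left this (by positivity)
          exact e2.trans (Finset.single_le_sum (f := fun j => w j * (v j : ℝ))
            (fun k _ => mul_nonneg (hw0 k) (Nat.cast_nonneg _)) (Finset.mem_univ j))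
        · push Not at hcase
          have e1 : ∑ j, w j * (v j : ℝ) = f (fun i => (v i : ℝ)) / u := by
            rw [dual_sum, Finset.sum_div]
            refine Finset.sum_congr rfl (fun j _ => ?_)
            by_cases hj : v j = 0
            · rw [hj, Nat.cast_zero, mul_zero, mul_zero, zero_div]
            · rw [hw]
              simp only
              rw [min_eq_left (hcase j hj).le]
              ring
          rw [e1, le_div_iff₀ hu, one_mul]
          exact (hfb _ (mem_v hv)).le
      have h1 := hxL w hwL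
      have h2 : ∑ j, w j * x j ≤ f x / u := by
        rw [dual_sum, Finset.sum_div]
        refine Finset.sum_le_sum (fun j _ => ?_)
        calc w j * x j ≤ f (Pi.single j 1) / u * x j := mul_le_mul_of_nonneg_right (min_le_left _ _) (hx0 j)
          _ = f (Pi.single j 1) * x j / u := by ring
      have h3 : f x / u < 1 := by rw [div_lt_one hu]; exact hfx
      linarith

end Pool.Agent.Helper93.KN.DU
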